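import Pool.Agent.Work.MP_14a437_ag.K.Basic

/-!
# F/Length  (S) : a positive additive function gives finite length

Strong induction on `n : ℕ` with `g (cl E) < n * ε`: if `E` is zero use `Ext.zero`; if `E` is `TSimple` use
`Ext.of`; otherwise there is `A → E → B` in `H` with `A, B` nonzero, `g (cl E) = g (cl A) + g (cl B)`
(`cl_tri`) so both have `g < (n-1) ε`; use `Ext.ext`.
`exists_tsimple`: induction on `Ext`.
-/

open CategoryTheory CategoryTheory.Limits CategoryTheory.Pretriangulated

universe v u

namespace MP_14a437_ag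

variable {C : Type u} [Category.{v} C] [Preadditive C] [HasZeroObject C] [HasShift C ℤ]
  [∀ n : ℤ, (shiftFunctor C n).Additive] [Pretriangulated C]

theorem finiteLength_of_bound (H : ObjectProperty C) (g : K0 C →+ ℝ) (ε : ℝ) (hε : 0 < ε)
    (hg : ∀ E, H E → ¬ IsZero E → ε ≤ g (cl E)) : FiniteLength H := by
  have key : ∀ n : ℕ, ∀ E, H E → g (cl E) < n * ε → Ext (TSimple H) E := by
    intro n
    induction n with
    | zero =>
      intro E hE hlt
      by_cases h0 : IsZero E
      · exact Ext.zero h0
      · have := hg E hE h0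
        simp at hlt
        linarith
    | succ n ih =>
      intro E hE hlt
      by_cases h0 : IsZero E
      · exact Ext.zero h0
      by_cases hs : TSimple H E
      · exact Ext.of hs
      have hs' : ∃ (A B : C) (f : A ⟶ E) (u : E ⟶ B) (h : B ⟶ A⟦(1 : ℤ)⟧),
          Triangle.mk f u h ∈ distTriang C ∧ H A ∧ H B ∧ ¬ IsZero A ∧ ¬ IsZero B := by
        by_contra hcon
        push Not at hcon
        apply hs
        refine ⟨hE, h0, fun A B f u h hT hA hB => ?_⟩
        by_cases hA0 : IsZero A
        · exact Or.inl hA0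
        · exact Or.inr (hcon A B f u h hT hA hB hA0)
      obtain ⟨A, B, f, u, h, hT, hA, hB, hA0, hB0⟩ := hs'
      have h1 : g (cl E) = g (cl A) + g (cl B) := by rw [cl_tri f u h hT, map_add]
      have h2 := hg A hA hA0
      have h3 := hg B hB hB0
      push_cast at hlt
      refine Ext.ext f u h hT (ih A hA ?_) (ih B hB ?_) <;> linarith
  intro E hE
  obtain ⟨n, hn⟩ := exists_nat_gt (g (cl E) / ε)
  exact key n E hE ((div_lt_iff₀ hε).1 hn)

theorem exists_of_ext {S : ObjectProperty C} {E : C} (h : Ext S E) (h0 : ¬ IsZero E) :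
    ∃ X, S X := by
  induction h with
  | zero h => exact absurd h h0
  | of h => exact ⟨_, h⟩
  | @ext A E B f g h hT _ _ ihA ihB =>
    by_cases hA : IsZero A
    · by_cases hB : IsZero B
      · exact absurd (Triangle.isZero₂_of_isZero₁₃ _ hT hA hB) h0
      · exact ihB hB
    · exact ihA hA

end MP_14a437_ag
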