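import Pool.Agent.Work.MP_14a437_ag.S.Ext

/-!
# F/Gen  (S-M) : generation of `C` by the shifts of the simple objects of a finite length heart

`Ext_shiftn`: induction on `Ext` (`Triangle.shift_distinguished`).  `Ext_mono`, `Ext_bind`: induction.
`generation`: induction on the HN filtration of `E`; a factor `A` of phase `φ` has a shift
`A⟦n⟧` of phase `φ + n ∈ (a, a+1]` (`n := ⌈a - φ⌉ + ...`, e.g. `n = ⌊a + 1 - φ⌋`), so `A⟦n⟧` is in the heart
(`hn_single`), hence in `Ext (TSimple ..)`, and `A ≅ A⟦n⟧⟦-n⟧`.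
-/

open CategoryTheory CategoryTheory.Limits CategoryTheory.Pretriangulated

universe v u

namespace MP_14a437_ag

variable {C : Type u} [Category.{v} C] [Preadditive C] [HasZeroObject C] [HasShift C ℤ]
  [∀ n : ℤ, (shiftFunctor C n).Additive] [Pretriangulated C] [IsTriangulated C]

/-- Shifts of objects of `T`. -/
def Shifts (T : ObjectProperty C) : ObjectProperty C :=
  fun X => ∃ (Y : C) (n : ℤ), T Y ∧ Nonempty (X ≅ Y⟦n⟧)

omit [IsTriangulated C] in
theorem Ext_iso {T : ObjectProperty C} {E E' : C} (e : E ≅ E') (h : Ext T E) : Ext T E' := by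
  open ZeroObject in
  have hT : Triangle.mk e.hom (0 : E' ⟶ (0 : C)) (0 : (0 : C) ⟶ E⟦(1 : ℤ)⟧) ∈ distTriang C := by
    rw [Triangle.distinguished_iff_of_isZero₃ _ (isZero_zero C)]
    exact (inferInstance : IsIso e.hom)
  exact Ext.ext _ _ _ hT h (Ext.zero (isZero_zero C))

omit [IsTriangulated C] in
theorem Ext_mono {S T : ObjectProperty C} (h : ∀ X, S X → T X) {E : C} (hE : Ext S E) :
    Ext T E := by
  induction hE with
  | zero h0 => exact Ext.zero h0
  | of h0 => exact Ext.of (h _ h0)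
  | ext f g h hT _ _ ihA ihB => exact Ext.ext f g h hT ihA ihB

omit [IsTriangulated C] in
theorem Ext_Shifts_shiftn {T : ObjectProperty C} {E : C} (n : ℤ) (hE : Ext (Shifts T) E) :
    Ext (Shifts T) (E⟦n⟧) := by
  induction hE with
  | zero h0 => exact Ext.zero ((shiftFunctor C n).map_isZero h0)
  | of h0 =>
    obtain ⟨Y, m, hY, ⟨e⟩⟩ := h0
    exact Ext.of ⟨Y, m + n, hY, ⟨(shiftFunctor C n).mapIso e ≪≫ ((shiftFunctorAdd C m n).app Y).symm⟩⟩
  | ext f g h hT _ _ ihA ihB => exact Ext.ext _ _ _ (Triangle.shift_distinguished _ hT n) ihA ihB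

theorem generation (S : Slicing C) (a : ℝ) (hfl : FiniteLength (S.heart a)) (E : C) :
    Ext (Shifts (TSimple (S.heart a))) E := by
  obtain ⟨l, hl⟩ := S.exists_hn E
  induction hl with
  | zero h0 => exact Ext.zero h0
  | @cons E' E A l φ f g h hT hE' hA hA0 hlt ih =>
    refine Ext.ext f g h hT ih ?_
    have h1 : S.P (φ + ((⌊a + 1 - φ⌋ : ℤ) : ℝ)) (A⟦⌊a + 1 - φ⌋⟧) := (P_shiftn S φ A _).2 hA
    have h2 : ¬ IsZero (A⟦⌊a + 1 - φ⌋⟧) := fun hz => hA0 ((isZero_shift_iff A _).1 hz)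
    have h3 : S.heart a (A⟦⌊a + 1 - φ⌋⟧) := by
      refine ⟨[φ + ((⌊a + 1 - φ⌋ : ℤ) : ℝ)], hn_single S h1 h2, ?_⟩
      intro ψ hψ
      rw [List.mem_singleton] at hψ
      subst hψ
      have h4 := Int.floor_le (a + 1 - φ)
      have h5 := Int.lt_floor_add_one (a + 1 - φ)
      constructor <;> linarith
    have h6 : Ext (Shifts (TSimple (S.heart a))) (A⟦⌊a + 1 - φ⌋⟧) :=
      Ext_mono (fun X hX => ⟨X, 0, hX, ⟨((shiftFunctorZero C ℤ).app X).symm⟩⟩) (hfl _ h3)
    exact Ext_iso (shiftShiftNeg A _) (Ext_Shifts_shiftn (-⌊a + 1 - φ⌋) h6)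

end MP_14a437_ag
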